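import Pool.Agent.Helper84.BA.Pt
import Pool.Agent.Helper54.BA.CEcalc

/-!
# Project BA, E3: the Mathias step preserves the scale
-/

set_option autoImplicit false
set_option linter.unusedSectionVars false

namespace Pool.Agent.Helper94.BA

open Pool.Agent.Helper33.HM

universe u

section E3

/-- The word of length `M + 1` (where `M` is the maximum of `t`) which agrees with `s` on the
domain of `s`, and is true exactly on `t` afterwards. -/
def h41_ext (s : List Bool) (t : Finset ℕ) : List Bool :=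
  (List.range (t.sup id + 1)).map fun i => if i < s.length then s.getD i false else decide (i ∈ t)

theorem h41_ext_length (s : List Bool) (t : Finset ℕ) :
    (h41_ext s t).length = t.sup id + 1 := by
  simp [h41_ext]

theorem h41_ext_getD (s : List Bool) (t : Finset ℕ) {i : ℕ} (hi : i < t.sup id + 1) :
    (h41_ext s t).getD i false = if i < s.length then s.getD i false else decide (i ∈ t) := by
  rw [List.getD_eq_getElem _ _ (by rw [h41_ext_length]; exact hi)]
  simp [h41_ext]

variable {A B : Type u} [CompleteBooleanAlgebra A] [CompleteBooleanAlgebra B] {e : A → B}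

theorem h41_ae_cyl (z : ℕ → B) : ∀ᶠ φ in aeB B, ∀ s : List Bool,
    (φ (cyl z s) ↔ ∀ i, i < s.length → (s.getD i false = true ↔ φ (z i))) := by
  filter_upwards [ae_forall fun s : List Bool => ae_iInf fun i : ℕ =>
    ⨅ h : i < s.length, if s[i] then z i else (z i)ᶜ] with φ h s
  unfold cyl
  rw [h]
  refine forall_congr' fun i => ?_
  rw [Pt.iInf_prop]
  refine forall_congr' fun hi => ?_
  rw [List.getD_eq_getElem _ _ hi, Pt.ite]
  by_cases h2 : s[i] = true
  · simp [h2]
  · simp [h2]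

theorem h41_ae_mcond (z y : ℕ → B) : ∀ᶠ φ in aeB B, ∀ s : List Bool,
    (φ (mcond z s y) ↔ (∀ i, i < s.length → (s.getD i false = true ↔ φ (z i))) ∧
      ∀ n, s.length ≤ n → φ (y n) → ¬ φ (z n)) := by
  filter_upwards [h41_ae_cyl z, ae_forall fun s : List Bool => ae_iInf fun n : ℕ =>
    ⨅ _ : s.length ≤ n, y n ⇨ (z n)ᶜ] with φ h1 h2 s
  unfold mcond
  rw [Pt.inf, h1, h2]
  refine and_congr Iff.rfl (forall_congr' fun n => ?_)
  rw [Pt.iInf_prop]
  simp

/-- The key property of the Mathias step. -/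
theorem h41_key (he : CE e) {J : Set (ℕ → A)} {z : ℕ → B} (hz : MStep e J z) {a c : A}
    {s : List Bool} {y : ℕ → A} (hy : y ∈ J)
    (h : e a ⊓ mcond z s (fun n => e (y n)) ≤ e c) : a ≤ c := by
  by_contra hcon
  have h1 : a ⊓ cᶜ ≠ ⊥ := fun h2 => hcon (by
    rwa [← disjoint_iff, disjoint_compl_right_iff] at h2)
  apply hz.pos _ h1 s y hy
  rw [he.map_inf, he.map_compl]
  have h2 : e a ⊓ (e c)ᶜ ⊓ mcond z s (fun n => e (y n)) ≤ e c ⊓ (e c)ᶜ := by
    refine le_inf ?_ (inf_le_left.trans inf_le_right)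
    exact (le_inf (inf_le_left.trans inf_le_left) inf_le_right).trans h
  exact le_bot_iff.1 (h2.trans (inf_compl_eq_bot).le)

theorem h41_pt_key {J : Set (ℕ → A)} {z : ℕ → B} (hz : MStep e J z) {a : A}
    (ha : a ≠ ⊥) (s : List Bool) {y : ℕ → A} (hy : y ∈ J) {p : Pt B → Prop}
    (hp : ∀ᶠ φ in aeB B, p φ) : ∃ φ : Pt B, p φ ∧ φ (e a ⊓ mcond z s fun n => e (y n)) := by
  by_contra hcon
  push Not at hcon
  exact hz.pos a ha s y hy (eq_bot_of_ae (hp.mono hcon))

theorem h41_getD_pad (s : List Bool) (k i : ℕ) :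
    (s ++ List.replicate k false).getD i false = s.getD i false := by
  by_cases hi : i < s.length
  · rw [List.getD_eq_getElem _ _ (by simp; omega), List.getD_eq_getElem _ _ hi,
      List.getElem_append_left hi]
  · rw [List.getD_eq_default s _ (by omega)]
    by_cases h2 : i < s.length + k
    · rw [List.getD_eq_getElem _ _ (by simp; omega), List.getElem_append_right (by omega)]
      simp
    · rw [List.getD_eq_default _ _ (by simp; omega)]

theorem h41_pad (z y : ℕ → B) (s : List Bool) (k : ℕ) :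
    mcond z (s ++ List.replicate k false) y ≤ mcond z s y := by
  refine le_of_ae ?_
  filter_upwards [h41_ae_mcond z y] with φ h h1
  rw [h] at h1 ⊢
  obtain ⟨h1, h2⟩ := h1
  refine ⟨fun i hi => ?_, fun n hn hy => ?_⟩
  · rw [← h41_getD_pad s k i]
    exact h1 i (by simp; omega)
  · by_cases h3 : n < s.length + k
    · have := h1 n (by simp; omega)
      rw [h41_getD_pad, List.getD_eq_default s _ (by omega)] at this
      simpa using this
    · exact h2 n (by simp; omega) hy

/-- The families of finite sets in the proof. -/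
def h41_X (e : A → B) (J : Set (ℕ → A)) (z : ℕ → B) (g : ℕ → ℕ → B) (s : List Bool) (n : ℕ)
    (t : Finset ℕ) : A :=
  ⨆ c : A, ⨆ _ : t.Nonempty ∧ (∀ i ∈ t, s.length ≤ i) ∧ ∃ y ∈ J,
    e c ⊓ mcond z (h41_ext s t) (fun n => e (y n)) ≤ ⨅ i : ℕ, ⨅ _ : i ≤ n, g i (t.sup id), c

theorem h41_X_anti (J : Set (ℕ → A)) (z : ℕ → B) (g : ℕ → ℕ → B) (s : List Bool) (n : ℕ)
    (t : Finset ℕ) : h41_X e J z g s (n + 1) t ≤ h41_X e J z g s n t := by
  refine iSup₂_le fun c hc => ?_
  refine le_iSup₂_of_le c ?_ le_rfl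
  obtain ⟨h1, h2, y, hy, h3⟩ := hc
  refine ⟨h1, h2, y, hy, h3.trans ?_⟩
  exact le_iInf₂ fun i hi => iInf₂_le i (by omega)

theorem h41_X_empty (J : Set (ℕ → A)) (z : ℕ → B) (g : ℕ → ℕ → B) (s : List Bool) (n : ℕ) :
    h41_X e J z g s n ∅ = ⊥ := by
  refine le_bot_iff.1 (iSup₂_le fun c hc => ?_)
  exact (Finset.not_nonempty_empty hc.1).elim

theorem h41_tot_fin {g : ℕ → ℕ → B} (hg : IsFn Set.univ g) (n : ℕ) :
    ⨆ v : ℕ, ⨅ i : ℕ, ⨅ _ : i ≤ n, g i v = ⊤ := by
  refine eq_top_of_ae ?_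
  filter_upwards [ae_iSup fun v : ℕ => ⨅ i : ℕ, ⨅ _ : i ≤ n, g i v,
    ae_forall fun v : ℕ => ae_iInf fun i : ℕ => ⨅ _ : i ≤ n, g i v,
    ae_forall fun i : ℕ => ae_iSup fun k : ℕ => g i k] with φ h1 h2 h3
  have h4 : ∀ i, ∃ k, φ (g i k) := fun i => (h3 i).1 (by rw [hg.tot]; simp)
  choose k hk using h4
  rw [h1]
  refine ⟨(Finset.range (n + 1)).sup k, ?_⟩
  rw [h2]
  intro i
  rw [Pt.iInf_prop]
  intro hi
  have hm : Monotone (g i) := monotone_nat_of_le_succ (hg.mono i)
  exact φ.mono (hm (Finset.le_sup (f := k) (Finset.mem_range.2 (by omega : i < n + 1)))) (hk i)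

theorem h41_X_dense (he : CE e) {h : Ordinal.{0} → ℕ → ℕ → A}
    {J : Set (ℕ → A)} (hJ : GoodIdeal h J) {z : ℕ → B} (hz : MStep e J z) {g : ℕ → ℕ → B}
    (hg : IsFn Set.univ g) (s : List Bool) (n : ℕ) {y : ℕ → A} (hy : y ∈ J) :
    ⨆ t : Finset ℕ, h41_X e J z g s n t ⊓ PC yᶜ t = ⊤ := by
  classical
  refine top_le_iff.1 (le_of_forall_meets fun a ha _ => ?_)
  -- decide a bound for the values of g
  obtain ⟨v, hv⟩ := exists_inf_ne_bot (hz.pos a ha s y hy)
    (le_top.trans (h41_tot_fin hg n).ge)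
  obtain ⟨a', ha', s₁, y', hy', hle₁⟩ := hz.dense _ hv
  -- lengthen the stem
  obtain ⟨s', hs', hle⟩ : ∃ s' : List Bool, s.length ≤ s'.length ∧
      e a' ⊓ mcond z s' (fun n => e (y' n)) ≤ e a ⊓ mcond z s (fun n => e (y n)) ⊓
        ⨅ i : ℕ, ⨅ _ : i ≤ n, g i v :=
    ⟨s₁ ++ List.replicate s.length false, by simp,
      (inf_le_inf_left _ (h41_pad z _ s₁ s.length)).trans hle₁⟩
  clear hle₁
  have haa : a' ≤ a := h41_key he hz hy' (hle.trans (inf_le_left.trans inf_le_left))
  have hcomp : ∀ i, i < s.length → s.getD i false = s'.getD i false := by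
    obtain ⟨φ, ⟨h1, h2⟩, h3⟩ := h41_pt_key hz ha' s' hy'
      ((h41_ae_mcond z fun n => e (y' n)).and (h41_ae_mcond z fun n => e (y n)))
    have h4 := φ.mono hle h3
    simp only [Pt.inf] at h3 h4
    rw [h1] at h3
    rw [h2] at h4
    intro i hi
    have h5 := h3.2.1 i (by omega)
    have h6 := h4.1.2.1 i hi
    rw [← h6] at h5
    exact (Bool.eq_iff_iff.2 h5).symm
  have hnew : ∀ i, s.length ≤ i → s'.getD i false = true → a' ≤ (y i)ᶜ := by
    intro i hi h1
    have hi' : i < s'.length := by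
      by_contra hcon
      rw [List.getD_eq_default _ _ (by omega)] at h1
      simp at h1
    refine h41_key he hz hy' (s := s') (le_of_ae ?_)
    filter_upwards [h41_ae_mcond z fun n => e (y' n), h41_ae_mcond z fun n => e (y n)]
      with φ h2 h3 h4
    have h5 := φ.mono hle h4
    simp only [Pt.inf] at h4 h5
    rw [h2] at h4
    rw [h3] at h5
    rw [he.map_compl, Pt.compl]
    intro h6
    exact h5.1.2.2 i hi h6 ((h4.2.1 i hi').1 h1)
  -- the new element
  have hprop := hJ.proper _ (hJ.sup _ hy _ hy') (max s'.length v)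
  obtain ⟨k, hk0⟩ := exists_inf_ne_bot ha' (le_top.trans hprop.ge)
  have hk : max s'.length v ≤ k := by
    by_contra hcon
    exact hk0 (by simp [hcon])
  rw [iSup_pos hk] at hk0
  have hk1 : s'.length ≤ k := le_trans (le_max_left _ _) hk
  have hk2 : v ≤ k := le_trans (le_max_right _ _) hk
  set a'' := a' ⊓ ((y ⊔ y') k)ᶜ with ha''
  let t : Finset ℕ := insert k ((Finset.range s'.length).filter fun i =>
    s.length ≤ i ∧ s'.getD i false = true)
  have htmem : ∀ i, i ∈ t ↔ i = k ∨ (i < s'.length ∧ s.length ≤ i ∧ s'.getD i false = true) := by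
    intro i
    simp [t]
  have htsup : t.sup id = k := by
    apply le_antisymm
    · refine Finset.sup_le fun i hi => ?_
      rcases (htmem i).1 hi with rfl | ⟨h1, _⟩
      · exact le_rfl
      · simp only [id]; omega
    · exact Finset.le_sup (f := id) ((htmem k).2 (Or.inl rfl))
  have hyk : a'' ≤ (y k)ᶜ := inf_le_right.trans (compl_le_compl le_sup_left)
  have hyk' : a'' ≤ (y' k)ᶜ := inf_le_right.trans (compl_le_compl le_sup_right)
  have hX : a'' ≤ h41_X e J z g s n t := by
    refine le_iSup₂_of_le a'' ⟨⟨k, (htmem k).2 (Or.inl rfl)⟩, ?_, y', hy', ?_⟩ le_rfl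
    · intro i hi
      rcases (htmem i).1 hi with rfl | ⟨_, h2, _⟩ <;> omega
    · rw [htsup]
      have hgk : (⨅ i : ℕ, ⨅ _ : i ≤ n, g i v) ≤ ⨅ i : ℕ, ⨅ _ : i ≤ n, g i k := by
        refine iInf₂_mono fun i _ => ?_
        exact (monotone_nat_of_le_succ (hg.mono i)) hk2
      refine le_trans ?_ ((hle.trans inf_le_right).trans hgk)
      refine le_of_ae ?_
      filter_upwards [h41_ae_mcond z fun n => e (y' n)] with φ h1
      rw [Pt.inf, Pt.inf, h1, h1]
      rintro ⟨h2, h3, h4⟩
      refine ⟨φ.mono (he.le_iff.2 inf_le_left) h2, ?_, ?_⟩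
      · intro i hi
        have h5 := h3 i (by rw [h41_ext_length, htsup]; omega)
        rw [h41_ext_getD s t (by rw [htsup]; omega)] at h5
        rw [← h5]
        by_cases h6 : i < s.length
        · rw [if_pos h6, hcomp i h6]
        · rw [if_neg h6, decide_eq_true_eq, htmem]
          constructor
          · intro h7
            exact Or.inr ⟨hi, by omega, h7⟩
          · rintro (h7 | h7)
            · omega
            · exact h7.2.2
      · intro i hi hyi
        rcases lt_trichotomy i k with h5 | h5 | h5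
        · have h6 := h3 i (by rw [h41_ext_length, htsup]; omega)
          rw [h41_ext_getD s t (by rw [htsup]; omega), if_neg (by omega), decide_eq_true_eq,
            htmem] at h6
          rw [← h6]
          rintro (h7 | h7)
          · omega
          · omega
        · subst h5
          have h6 := φ.mono (he.le_iff.2 hyk') h2
          rw [he.map_compl, Pt.compl] at h6
          exact (h6 hyi).elim
        · exact h4 i (by rw [h41_ext_length, htsup]; omega) hyi
  have hPC : a'' ≤ PC yᶜ t := by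
    refine le_iInf₂ fun i hi => ?_
    rcases (htmem i).1 hi with rfl | ⟨_, h2, h3⟩
    · exact hyk
    · exact inf_le_left.trans (hnew i h2 h3)
  intro hbot
  apply hk0
  refine le_bot_iff.1 (le_trans ?_ hbot.le)
  refine le_inf (inf_le_left.trans haa) (le_iSup_of_le t (le_inf hX hPC))

/-- The generic set is infinite, and almost disjoint from all members of `J`. -/
theorem MStep.infinite (he : CE e) {h : Ordinal.{0} → ℕ → ℕ → A} {J : Set (ℕ → A)}
    (hJ : GoodIdeal h J) {z : ℕ → B} (hz : MStep e J z) : finV z = ⊥ := by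
  by_contra hcon
  unfold finV at hcon
  obtain ⟨m, hm⟩ := exists_inf_ne_bot hcon le_rfl
  obtain ⟨a, ha, s, y, hy, hle⟩ := hz.dense _ hm
  have hprop := hJ.proper y hy (max s.length m)
  obtain ⟨k, hk0⟩ := exists_inf_ne_bot ha (le_top.trans hprop.ge)
  have hk : max s.length m ≤ k := by
    by_contra hcon
    exact hk0 (by simp [hcon])
  rw [iSup_pos hk] at hk0
  have hk1 : s.length ≤ k := le_trans (le_max_left _ _) hk
  have hk2 : m ≤ k := le_trans (le_max_right _ _) hk
  obtain ⟨φ, ⟨⟨h1, h2⟩, h3⟩, h4⟩ := h41_pt_key hz hk0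
    ((s ++ List.replicate (k - s.length) false) ++ [true]) hy
    (((h41_ae_mcond z fun n => e (y n)).and
      (ae_iInf fun n : ℕ => ⨅ _ : m ≤ n, (z n)ᶜ)).and (h41_ae_cyl z))
  rw [Pt.inf, h1] at h4
  obtain ⟨h4, h5, h6⟩ := h4
  have hlen : ((s ++ List.replicate (k - s.length) false) ++ [true]).length = k + 1 := by
    simp; omega
  rw [hlen] at h5 h6
  have hzk : φ (z k) := by
    rw [← h5 k (by omega)]
    rw [List.getD_eq_getElem _ _ (by rw [hlen]; omega), List.getElem_append_right (by simp; omega)]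
    simp
  have h7 : φ (e a ⊓ mcond z s fun n => e (y n)) := by
    rw [Pt.inf, h1]
    refine ⟨φ.mono (he.le_iff.2 inf_le_left) h4, ?_, ?_⟩
    · intro i hi
      rw [← h5 i (by omega)]
      rw [List.getD_eq_getElem s _ hi, List.getD_eq_getElem _ _ (by rw [hlen]; omega)]
      rw [List.getElem_append_left (by simp; omega), List.getElem_append_left hi]
    · intro i hi hyi
      rcases lt_trichotomy i k with h8 | h8 | h8
      · rw [← h5 i (by omega)]
        rw [List.getD_eq_getElem _ _ (by rw [hlen]; omega),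
          List.getElem_append_left (by simp; omega), List.getElem_append_right (by omega)]
        simp
      · subst h8
        have h9 := φ.mono (he.le_iff.2 inf_le_right) h4
        rw [he.map_compl, Pt.compl] at h9
        exact (h9 hyi).elim
      · exact h6 i (by omega) hyi
  have h8 := φ.mono hle h7
  rw [Pt.inf, h2] at h8
  have h9 := h8.2 k
  rw [Pt.iInf_prop] at h9
  have h10 := h9 hk2
  rw [Pt.compl] at h10
  exact h10 hzk

theorem MStep.finite_inf (he : CE e) {h : Ordinal.{0} → ℕ → ℕ → A} {J : Set (ℕ → A)}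
    (hJ : GoodIdeal h J) {z : ℕ → B} (hz : MStep e J z) {y : ℕ → A} (hy : y ∈ J) :
    finV (z ⊓ fun n => e (y n)) = ⊤ := by
  refine top_le_iff.1 (le_of_forall_meets fun b hb _ => ?_)
  obtain ⟨a, ha, s, y', hy', hle⟩ := hz.dense _ hb
  obtain ⟨φ, ⟨⟨h1, h2⟩, h3⟩, h4⟩ := h41_pt_key hz ha s (hJ.sup _ hy _ hy')
    (((h41_ae_mcond z fun n => e ((y ⊔ y') n)).and (h41_ae_mcond z fun n => e (y' n))).and
      (ae_finV (z ⊓ fun n => e (y n))))
  rw [Pt.inf, h1] at h4
  obtain ⟨h4, h5, h6⟩ := h4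
  intro hbot
  have h7 : φ (b ⊓ finV (z ⊓ fun n => e (y n))) := by
    rw [Pt.inf, h3]
    refine ⟨φ.mono hle ?_, s.length, fun n hn => ?_⟩
    · rw [Pt.inf, h2]
      refine ⟨h4, h5, fun n hn hy'n => h6 n hn ?_⟩
      exact φ.mono (he.le_iff.2 (le_sup_right : y' n ≤ y n ⊔ y' n)) hy'n
    · rw [Pi.inf_apply, Pt.inf]
      rintro ⟨h8, h9⟩
      refine h6 n hn ?_ h8
      exact φ.mono (he.le_iff.2 (le_sup_left : y n ≤ y n ⊔ y' n)) h9
  rw [hbot] at h7
  simp at h7

theorem h41_leStar_trans {f g k : ℕ → ℕ → A} : leStar f g ⊓ leStar g k ≤ leStar f k := by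
  refine le_of_ae ?_
  have hae : ∀ f g : ℕ → ℕ → A, ∀ᶠ φ in aeB A, (φ (leStar f g) ↔ ∃ m : ℕ, ∀ n, m ≤ n →
      ∀ k, φ (g n k) → φ (f n k)) := by
    intro f g
    filter_upwards [ae_iSup fun m : ℕ => ⨅ n : ℕ, ⨅ _ : m ≤ n, ⨅ k : ℕ, g n k ⇨ f n k,
      ae_forall fun m : ℕ => ae_iInf fun n : ℕ => ⨅ _ : m ≤ n, ⨅ k : ℕ, g n k ⇨ f n k,
      ae_forall fun n : ℕ => ae_iInf fun k : ℕ => g n k ⇨ f n k] with φ h1 h2 h3
    unfold leStar
    rw [h1]
    refine exists_congr fun m => ?_
    rw [h2]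
    refine forall_congr' fun n => ?_
    rw [Pt.iInf_prop]
    refine forall_congr' fun _ => ?_
    rw [h3]
    simp
  filter_upwards [hae f g, hae g k, hae f k] with φ h1 h2 h3
  rw [Pt.inf, h1, h2, h3]
  rintro ⟨⟨m, hm⟩, ⟨m', hm'⟩⟩
  refine ⟨max m m', fun n hn j hj => ?_⟩
  exact hm n (le_trans (le_max_left _ _) hn) j (hm' n (le_trans (le_max_right _ _) hn) j hj)

theorem scale_succ (he : CE e) {h : Ordinal.{0} → ℕ → ℕ → A} (hs : IsScale h)
    {J : Set (ℕ → A)} (hJ : GoodIdeal h J) {z : ℕ → B} (hz : MStep e J z) :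
    IsScale fun β n k => e (h β n k) := by
  classical
  refine ⟨fun β => he.isFn (hs.fn β), fun β γ hβγ => ?_, fun g hg => ?_⟩
  · rw [← he.map_leStar, hs.mono β γ hβγ, he.map_top]
  · -- the bounds
    have hcan : ∀ s : List Bool, ∃ β : Ordinal.{0}, ∀ y ∈ J, ∀ m : ℕ,
        ⨆ n : ℕ, ⨆ _ : m ≤ n, ⨆ t : Finset ℕ,
          h41_X e J z g s n t ⊓ PC yᶜ t ⊓ ltC (h β n) t = ⊤ := fun s =>
      hJ.canjar (h41_X e J z g s) (fun n t => h41_X_anti J z g s n t)
        (fun n => h41_X_empty J z g s n) fun n y hy => h41_X_dense he hJ hz hg s n hy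
    choose βs hβs using hcan
    let β : Ordinal.{0} := ⨆ s, βs s
    have hββ : ∀ s, βs s ≤ β := fun s => Ordinal.le_iSup βs s
    refine le_bot_iff.1 ((iInf_le _ β).trans ?_)
    rw [le_bot_iff]
    by_contra hcon
    unfold leStar at hcon
    obtain ⟨m, hm⟩ := exists_inf_ne_bot hcon le_rfl
    obtain ⟨a, ha, s, y, hy, hle⟩ := hz.dense _ hm
    replace hle := hle.trans inf_le_right
    -- almost everywhere comparison of the two bounds
    have h1 : a ≤ leStar (h (βs s)) (h β) := by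
      rw [hs.mono _ _ (hββ s)]; exact le_top
    unfold leStar at h1
    obtain ⟨m', hm'⟩ := exists_inf_ne_bot ha h1
    set a₁ := a ⊓ ⨅ n : ℕ, ⨅ _ : m' ≤ n, ⨅ k : ℕ, h β n k ⇨ h (βs s) n k with ha₁
    obtain ⟨n, hn⟩ := exists_inf_ne_bot hm'
      (le_top.trans (hβs s y hy (max m m')).ge)
    have hmn : max m m' ≤ n := by
      by_contra hcon
      exact hn (by simp [hcon])
    rw [iSup_pos hmn, inf_iSup_eq] at hn
    obtain ⟨t, ht⟩ := exists_inf_ne_bot hn le_rfl
    have hmn1 : m ≤ n := le_trans (le_max_left _ _) hmn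
    have hmn2 : m' ≤ n := le_trans (le_max_right _ _) hmn
    -- unfold the family X
    have ht2 : a₁ ⊓ (PC yᶜ t ⊓ ltC (h (βs s) n) t) ⊓ h41_X e J z g s n t ≠ ⊥ := by
      intro h2
      apply ht
      refine le_bot_iff.1 (le_trans ?_ h2.le)
      refine inf_le_right.trans ?_
      refine le_inf (le_inf inf_le_left (le_inf ?_ ?_)) ?_
      · exact inf_le_right.trans (inf_le_left.trans inf_le_right)
      · exact inf_le_right.trans inf_le_right
      · exact inf_le_right.trans (inf_le_left.trans inf_le_left)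
    unfold h41_X at ht2
    rw [inf_iSup_eq] at ht2
    obtain ⟨c, hc0⟩ := exists_inf_ne_bot ht2 le_rfl
    have hc : t.Nonempty ∧ (∀ i ∈ t, s.length ≤ i) ∧ ∃ y ∈ J,
        e c ⊓ mcond z (h41_ext s t) (fun n => e (y n)) ≤ ⨅ i : ℕ, ⨅ _ : i ≤ n, g i (t.sup id) := by
      by_contra hcon
      exact hc0 (by simp only [iSup_neg hcon, inf_bot_eq])
    simp only [iSup_pos hc] at hc0
    obtain ⟨htn, hts, y', hy', hle'⟩ := hc
    set a₃ := a₁ ⊓ (PC yᶜ t ⊓ ltC (h (βs s) n) t) ⊓ c with ha₃
    have ha₃0 : a₃ ≠ ⊥ := by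
      intro h2
      apply hc0
      exact le_bot_iff.1 (inf_le_right.trans h2.le)
    have hM : t.sup id ∈ t := by
      obtain ⟨i, hi, h2⟩ := Finset.exists_mem_eq_sup t htn id
      rw [h2]; exact hi
    set M := t.sup id with hMdef
    have hMs : s.length ≤ M := hts M hM
    obtain ⟨φ, ⟨⟨⟨h3, h4⟩, h5⟩, ⟨h6, h7⟩, ⟨h8, h9⟩⟩, h10⟩ := h41_pt_key hz ha₃0 (h41_ext s t)
      (hJ.sup _ hy _ hy')
      ((((h41_ae_mcond z fun n => e ((y ⊔ y') n)).and (h41_ae_mcond z fun n => e (y n))).and
        (h41_ae_mcond z fun n => e (y' n))).and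
        (((ae_iInf fun i : ℕ => ⨅ _ : m ≤ i, ⨅ k : ℕ, g i k ⇨ e (h β i k)).and
          (ae_iInf fun k : ℕ => g n k ⇨ e (h β n k))).and
        ((ae_iInf fun i : ℕ => ⨅ _ : i ≤ n, g i M).and (Filter.Eventually.of_forall fun _ => trivial
          : ∀ᶠ φ in aeB B, True))))
    rw [Pt.inf, h3, h41_ext_length, ← hMdef] at h10
    obtain ⟨h10, h11, h12⟩ := h10
    have h13 : φ (g n M) := by
      have h14 : φ (e c ⊓ mcond z (h41_ext s t) fun n => e (y' n)) := by
        rw [Pt.inf, h5, h41_ext_length, ← hMdef]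
        refine ⟨φ.mono (he.le_iff.2 inf_le_right) h10, h11, fun i hi hyi => h12 i hi ?_⟩
        exact φ.mono (he.le_iff.2 (le_sup_right : y' i ≤ y i ⊔ y' i)) hyi
      have h15 := φ.mono hle' h14
      rw [h8] at h15
      have h16 := h15 n
      rw [Pt.iInf_prop] at h16
      exact h16 le_rfl
    have h14 : φ (e a ⊓ mcond z s fun n => e (y n)) := by
      rw [Pt.inf, h4]
      refine ⟨φ.mono (he.le_iff.2 ((inf_le_left.trans inf_le_left).trans inf_le_left)) h10,
        ?_, ?_⟩
      · intro i hi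
        rw [← h11 i (by omega), h41_ext_getD s t (by omega), if_pos hi]
      · intro i hi hyi
        by_cases h15 : i < M + 1
        · rw [← h11 i h15, h41_ext_getD s t (by omega), if_neg (by omega), decide_eq_true_eq]
          intro h16
          have h17 : a₃ ≤ (y i)ᶜ := by
            have h18 : a₃ ≤ PC yᶜ t :=
              (inf_le_left.trans inf_le_right).trans inf_le_left
            exact h18.trans (iInf₂_le i h16)
          have h18 := φ.mono (he.le_iff.2 h17) h10
          rw [he.map_compl, Pt.compl] at h18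
          exact h18 hyi
        · refine h12 i (by omega) ?_
          exact φ.mono (he.le_iff.2 (le_sup_left : y i ≤ y i ⊔ y' i)) hyi
    have h15 := φ.mono hle h14
    rw [h6] at h15
    have h16 := h15 n
    rw [Pt.iInf_prop] at h16
    have h17 := h16 hmn1
    rw [h7] at h17
    have h18 := h17 M
    rw [Pt.himp] at h18
    have h19 : φ (e (h β n M)) := h18 h13
    have h20 : a₃ ⊓ h β n M ≤ h (βs s) n M := by
      have h21 : a₃ ≤ h β n M ⇨ h (βs s) n M := by
        refine ((inf_le_left.trans inf_le_left).trans inf_le_right).trans ?_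
        exact (iInf₂_le n hmn2).trans (iInf_le _ M)
      exact le_himp_iff.1 h21
    have h21 : φ (e (h (βs s) n M)) := by
      refine φ.mono (he.le_iff.2 h20) ?_
      rw [he.map_inf, Pt.inf]
      exact ⟨h10, h19⟩
    have h22 : a₃ ≤ (h (βs s) n M)ᶜ := by
      have h23 : a₃ ≤ ltC (h (βs s) n) t := (inf_le_left.trans inf_le_right).trans inf_le_right
      exact h23.trans (iInf₂_le M hM)
    have h23 := φ.mono (he.le_iff.2 h22) h10
    rw [he.map_compl, Pt.compl] at h23
    exact h23 h21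

end E3

end Pool.Agent.Helper94.BA
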