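import Pool.Agent.Helper84.BA.Pt
import Pool.Agent.Helper54.BA.CEcalc
import Pool.Agent.Helper49.BA.AdV
import Pool.Agent.Helper82.BA.DepChoice

/-!
# Project BA, E2: absoluteness of almost disjointness from an analytic family
-/

set_option autoImplicit false
set_option linter.unusedSectionVars false

namespace Pool.Agent.Helper94.BA

open Pool.Agent.Helper33.HM

universe u

section E2

variable {A B : Type u} [CompleteBooleanAlgebra A] [CompleteBooleanAlgebra B] {e : A → B}

/-- The least element of `A` whose image is above `b`. -/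
def h41_pr (e : A → B) (b : B) : A := sInf {a : A | b ≤ e a}

theorem h41_gc (he : CE e) : GaloisConnection (h41_pr e) e := by
  intro b a
  constructor
  · intro h
    have h1 : b ≤ e (h41_pr e b) := by
      unfold h41_pr
      rw [sInf_eq_iInf', he.map_iInf]
      exact le_iInf fun i => i.2
    exact h1.trans (he.le_iff.2 h)
  · intro h
    exact sInf_le h

theorem h41_pr_inf (he : CE e) (a : A) (b : B) : h41_pr e (e a ⊓ b) ≤ a ⊓ h41_pr e b := by
  rw [(h41_gc he).le_iff_le, he.map_inf]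
  exact inf_le_inf_left _ ((h41_gc he).le_u_l b)

theorem h41_prefix_getElem? {α : Type*} {l l' : List α} (h : l <+: l') {k : ℕ} {a : α}
    (hk : l[k]? = some a) : l'[k]? = some a := by
  obtain ⟨r, rfl⟩ := h
  have hk' : k < l.length := by
    by_contra hcon
    rw [List.getElem?_eq_none (by omega)] at hk
    simp at hk
  rw [List.getElem?_append_left hk', hk]

/-- The relation of the dependent choice. -/
def h41_R (t t' : List (Bool × ℕ)) : Prop := ∃ u m, t <+: u ∧ t' = u ++ [(true, m)]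

theorem CE.ad_abs (he : CE e) (T : List (Bool × ℕ) → A) (y : ℕ → A)
    (h : ∀ x w, brT T x w ≤ finV (x ⊓ yᶜ)) (x : ℕ → B) (w : ℕ → ℕ → B) :
    brT (fun t => e (T t)) x w ≤ finV (x ⊓ (fun n => e (y n))ᶜ) := by
  classical
  set d : B := brT (fun t => e (T t)) x w ⊓ (finV (x ⊓ (fun n => e (y n))ᶜ))ᶜ with hd
  let V : List (Bool × ℕ) → A := fun t => h41_pr e (d ⊓ brV x w t)
  have hV1 : ∀ t, V t ≤ T t := by
    intro t
    rw [(h41_gc he).le_iff_le]
    have h1 : d ≤ brV x w t ⇨ e (T t) := inf_le_left.trans (inf_le_right.trans (iInf_le _ t))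
    exact le_himp_iff.1 h1
  have hV2 : ∀ t t', t <+: t' → V t' ≤ V t := fun t t' h1 =>
    (h41_gc he).monotone_l (inf_le_inf_left _ (brV_prefix x w h1))
  let Yc : List (Bool × ℕ) → A := fun t => if t.length = 0 then ⊤ else (y (t.length - 1))ᶜ
  have hV3 : ∀ t, V t ≤ ⨆ t' : List (Bool × ℕ), ⨆ _ : h41_R t t', V t' ⊓ Yc t' := by
    intro t
    have h1 : d ⊓ brV x w t ≤ ⨆ t' : List (Bool × ℕ), ⨆ _ : h41_R t t',
        e (Yc t') ⊓ (d ⊓ brV x w t') := by
      refine le_of_ae ?_
      filter_upwards [ae_brT (fun t => e (T t)) x w, ae_finV (x ⊓ (fun n => e (y n))ᶜ),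
        ae_forall fun k : ℕ => ae_iSup fun u : List (Bool × ℕ) =>
          ⨆ _ : t <+: u ∧ u.length = k, brV x w u,
        ae_iSup fun t' : List (Bool × ℕ) => ⨆ _ : h41_R t t', e (Yc t') ⊓ (d ⊓ brV x w t')]
        with φ h1 h2 h3 h4 h5
      rw [h4]
      rw [Pt.inf] at h5
      obtain ⟨hφd, h5⟩ := h5
      have h6 := hφd
      rw [hd, Pt.inf, Pt.compl, h2] at h6
      obtain ⟨h6, h7⟩ := h6
      push Not at h7
      obtain ⟨k, hk, hxk⟩ := h7 t.length
      rw [Pi.inf_apply, Pt.inf, Pi.compl_apply, Pt.compl] at hxk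
      have h8 : φ (⨆ u : List (Bool × ℕ), ⨆ _ : t <+: u ∧ u.length = k, brV x w u) :=
        φ.mono (brV_extend (fun t => e (T t)) x w t k hk) (by rw [Pt.inf]; exact ⟨h5, h6⟩)
      rw [h3] at h8
      obtain ⟨u, hu⟩ := h8
      rw [Pt.iSup_prop] at hu
      obtain ⟨⟨hu1, hu2⟩, hu3⟩ := hu
      obtain ⟨m, hm⟩ := (h1.1 h6).1 k
      refine ⟨u ++ [(true, m)], ?_⟩
      rw [Pt.iSup_prop]
      refine ⟨⟨u, m, hu1, rfl⟩, ?_⟩
      refine (Pt.inf φ _ _).2 ⟨?_, (Pt.inf φ _ _).2 ⟨hφd, ?_⟩⟩
      · simp only [Yc, List.length_append, List.length_singleton, Nat.add_eq_zero_iff,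
          one_ne_zero, and_false, if_false, Nat.add_sub_cancel, he.map_compl, Pt.compl]
        rw [hu2]
        exact hxk.2
      · rw [brV_snoc, Pt.inf, Pt.inf, hu2, if_pos rfl]
        exact ⟨hu3, hxk.1, hm⟩
    refine ((h41_gc he).monotone_l h1).trans ?_
    rw [(h41_gc he).l_iSup]
    refine iSup_mono fun t' => ?_
    rw [(h41_gc he).l_iSup]
    refine iSup_mono fun _ => ?_
    rw [inf_comm (V t')]
    exact h41_pr_inf he _ _
  let W : List (Bool × ℕ) → A := fun t => V t ⊓ Yc t
  obtain ⟨f, hf0, -, hfW, hfS, hfd, hfR, -⟩ := dep_choice W h41_R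
    (fun s => inf_le_left.trans (hV3 s)) []
  have hW0 : W [] = V [] := by simp [W, Yc]
  rw [hW0] at hf0 hfS
  let x' : ℕ → A := fun k => ⨆ i : ℕ × List (Bool × ℕ),
    ⨆ _ : (i.2[k]?).map Prod.fst = some true, f i.1 i.2
  let w' : ℕ → ℕ → A := fun k m => ⨆ i : ℕ × List (Bool × ℕ),
    ⨆ _ : (i.2[k]?).map Prod.snd = some m, f i.1 i.2
  have hmain : V [] ≤ brT T x' w' ⊓ (finV (x' ⊓ yᶜ))ᶜ := by
    refine le_of_ae ?_
    filter_upwards [ae_brT T x' w', ae_brV x' w', ae_finV (x' ⊓ yᶜ),
      ae_forall fun j : ℕ => ae_iSup (f j),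
      ae_forall fun k : ℕ => ae_iSup fun i : ℕ × List (Bool × ℕ) =>
        ⨆ _ : (i.2[k]?).map Prod.fst = some true, f i.1 i.2,
      ae_forall fun k : ℕ => ae_forall fun m : ℕ => ae_iSup fun i : ℕ × List (Bool × ℕ) =>
        ⨆ _ : (i.2[k]?).map Prod.snd = some m, f i.1 i.2] with φ h1 h2 h3 h4 h5 h6 h0
    have h7 : ∀ j, ∃ s, φ (f j s) := fun j => (h4 j).1 (by rw [hfS]; exact h0)
    choose s hs using h7
    have huniq : ∀ j t, φ (f j t) → t = s j := by
      intro j t ht
      by_contra hne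
      have h8 : φ (f j t ⊓ f j (s j)) := by rw [Pt.inf]; exact ⟨ht, hs j⟩
      rw [hfd j t (s j) hne] at h8
      simp at h8
    have hR : ∀ j, h41_R (s j) (s (j + 1)) := by
      intro j
      by_contra hne
      have h8 : φ (f j (s j) ⊓ f (j + 1) (s (j + 1))) := by rw [Pt.inf]; exact ⟨hs j, hs _⟩
      rw [hfR j _ _ hne] at h8
      simp at h8
    have hpre : ∀ i j, i ≤ j → s i <+: s j := by
      intro i j hij
      induction j, hij using Nat.le_induction with
      | base => exact List.prefix_rfl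
      | succ j _ ih =>
        obtain ⟨u, m, hu, hs'⟩ := hR j
        rw [hs']
        exact (ih.trans hu).trans (List.prefix_append _ _)
    have hlen : ∀ j, j ≤ (s j).length := by
      intro j
      induction j with
      | zero => exact Nat.zero_le _
      | succ j ih =>
        obtain ⟨u, m, hu, hs'⟩ := hR j
        rw [hs']
        have := hu.length_le
        simp
        omega
    have hcons : ∀ (i j k : ℕ) (a b : Bool × ℕ), (s i)[k]? = some a → (s j)[k]? = some b →
        a = b := by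
      intro i j k a b ha hb
      have h8 := h41_prefix_getElem? (hpre i (max i j) (le_max_left _ _)) ha
      have h9 := h41_prefix_getElem? (hpre j (max i j) (le_max_right _ _)) hb
      rw [h8] at h9
      exact Option.some_injective _ h9
    have hx' : ∀ k, φ (x' k) ↔ ∃ j m, (s j)[k]? = some (true, m) := by
      intro k
      show φ (⨆ i : ℕ × List (Bool × ℕ),
        ⨆ _ : (i.2[k]?).map Prod.fst = some true, f i.1 i.2) ↔ _
      rw [h5]
      constructor
      · rintro ⟨⟨j, t⟩, hjt⟩
        rw [Pt.iSup_prop] at hjt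
        obtain ⟨h8, h9⟩ := hjt
        rw [huniq j t h9] at h8
        rw [Option.map_eq_some_iff] at h8
        obtain ⟨⟨b, m⟩, h8, h10⟩ := h8
        refine ⟨j, m, ?_⟩
        rw [h8]
        simp only at h10
        rw [h10]
      · rintro ⟨j, m, h8⟩
        refine ⟨(j, s j), ?_⟩
        rw [Pt.iSup_prop]
        refine ⟨?_, hs j⟩
        simp only [h8, Option.map_some]
    have hw' : ∀ k m, φ (w' k m) ↔ ∃ j b, (s j)[k]? = some (b, m) := by
      intro k m
      show φ (⨆ i : ℕ × List (Bool × ℕ),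
        ⨆ _ : (i.2[k]?).map Prod.snd = some m, f i.1 i.2) ↔ _
      rw [h6]
      constructor
      · rintro ⟨⟨j, t⟩, hjt⟩
        rw [Pt.iSup_prop] at hjt
        obtain ⟨h8, h9⟩ := hjt
        rw [huniq j t h9] at h8
        rw [Option.map_eq_some_iff] at h8
        obtain ⟨⟨b, m'⟩, h8, h10⟩ := h8
        refine ⟨j, b, ?_⟩
        rw [h8]
        simp only at h10
        rw [h10]
      · rintro ⟨j, b, h8⟩
        refine ⟨(j, s j), ?_⟩
        rw [Pt.iSup_prop]
        refine ⟨?_, hs j⟩
        simp only [h8, Option.map_some]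
    have hWs : ∀ j, φ (V (s j)) ∧ φ (Yc (s j)) := by
      intro j
      have h8 := φ.mono (hfW j (s j)) (hs j)
      rw [Pt.inf] at h8
      exact h8
    rw [Pt.inf, Pt.compl, h1, h3]
    refine ⟨⟨fun i => ?_, fun t ht => ?_⟩, ?_⟩
    · have h8 : i < (s (i + 1)).length := hlen (i + 1)
      refine ⟨((s (i + 1))[i]).2, (hw' i _).2 ⟨i + 1, ((s (i + 1))[i]).1, ?_⟩⟩
      rw [List.getElem?_eq_getElem h8]
    · rw [h2] at ht
      have h8 : t <+: s t.length := by
        rw [List.prefix_iff_getElem?]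
        intro i hi
        have hi' : i < (s t.length).length := lt_of_lt_of_le hi (hlen _)
        obtain ⟨h9, h10⟩ := ht i hi
        rw [hw'] at h10
        obtain ⟨j, b, h10⟩ := h10
        rw [hx'] at h9
        have h11 := hcons j t.length i _ _ h10 (List.getElem?_eq_getElem hi')
        rw [List.getElem?_eq_getElem hi', ← h11]
        congr 1
        refine Prod.ext ?_ rfl
        show b = (t[i]).1
        rcases hb : b with _ | _
        · symm
          rw [Bool.eq_false_iff]
          intro h12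
          obtain ⟨j', m', h13⟩ := h9.1 h12
          have h14 := hcons j j' i _ _ h10 h13
          rw [hb] at h14
          simp at h14
        · symm
          rw [h9]
          exact ⟨j, _, by rw [h10, hb]⟩
      exact φ.mono ((hV2 _ _ h8).trans (hV1 t)) (hWs _).1
    · rintro ⟨m, hm⟩
      obtain ⟨u, c, hu, hs'⟩ := hR m
      have h8 : m ≤ u.length := (hlen m).trans hu.length_le
      apply hm u.length h8
      rw [Pi.inf_apply, Pt.inf, Pi.compl_apply, Pt.compl]
      refine ⟨(hx' _).2 ⟨m + 1, c, ?_⟩, ?_⟩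
      · rw [hs']
        simp
      · have h9 := (hWs (m + 1)).2
        simp only [Yc, hs', List.length_append, List.length_singleton, Nat.add_eq_zero_iff,
          one_ne_zero, and_false, if_false, Nat.add_sub_cancel, Pt.compl] at h9
        exact h9
  have hbot : V [] ≤ ⊥ := by
    refine hmain.trans ?_
    calc brT T x' w' ⊓ (finV (x' ⊓ yᶜ))ᶜ ≤ finV (x' ⊓ yᶜ) ⊓ (finV (x' ⊓ yᶜ))ᶜ :=
          inf_le_inf_right _ (h x' w')
      _ ≤ ⊥ := (inf_compl_eq_bot).le
  have hd0 : d ≤ ⊥ := by
    have h1 : d ⊓ brV x w [] ≤ e ⊥ := (h41_gc he).le_iff_le.1 hbot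
    have h2 : brV x w [] = ⊤ := by simp [brV]
    rw [h2, inf_top_eq, he.map_bot] at h1
    exact h1
  rw [← disjoint_compl_right_iff, disjoint_iff]
  exact le_bot_iff.1 hd0

end E2

end Pool.Agent.Helper94.BA
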